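import Pool.Agent.Helper99.MKV.GoalsR

open Finset MeasureTheory ProbabilityTheory Filter
open scoped ENNReal

namespace Pool.Agent.Helper8.MKV

open Pool.Agent.Helper99.MKV Pool.Agent.Helper99.EXC Pool.Agent.Helper99.ERW

lemma uces_shift {u : ℕ → ℝ} {l : ℝ} (h : UCes u l) : UCes (fun i => u (i + 1)) l := by
  intro ε hε
  obtain ⟨n0, hn0⟩ := h ε hε
  refine ⟨n0, fun n hn h1 m => ?_⟩
  have e : ∑ i ∈ Finset.range n, u (m + i + 1) = ∑ i ∈ Finset.range n, u (m + 1 + i) :=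
    Finset.sum_congr rfl fun i _ => by rw [show m + i + 1 = m + 1 + i by ring]
  have := hn0 n hn h1 (m + 1)
  simpa only [e] using this

lemma uces_add {u v : ℕ → ℝ} {l k : ℝ} (h : UCes u l) (h' : UCes v k) :
    UCes (fun i => u i + v i) (l + k) := by
  intro ε hε
  obtain ⟨n0, hn0⟩ := h (ε / 2) (by linarith)
  obtain ⟨n1, hn1⟩ := h' (ε / 2) (by linarith)
  refine ⟨max n0 n1, fun n hn h1 m => ?_⟩
  have a1 := hn0 n (le_trans (le_max_left _ _) hn) h1 m
  have a2 := hn1 n (le_trans (le_max_right _ _) hn) h1 m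
  have e : (∑ i ∈ Finset.range n, (u (m + i) + v (m + i))) / n - (l + k) =
      ((∑ i ∈ Finset.range n, u (m + i)) / n - l) + ((∑ i ∈ Finset.range n, v (m + i)) / n - k) := by
    rw [Finset.sum_add_distrib, add_div]; ring
  show |(∑ i ∈ Finset.range n, (u (m + i) + v (m + i))) / n - (l + k)| ≤ ε
  rw [e]
  exact le_trans (abs_add_le _ _) (by linarith)

lemma uces_mul {u : ℕ → ℝ} {l : ℝ} (c : ℝ) (h : UCes u l) : UCes (fun i => c * u i) (c * l) := by
  intro ε hε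
  obtain ⟨n0, hn0⟩ := h (ε / (|c| + 1)) (by positivity)
  refine ⟨n0, fun n hn h1 m => ?_⟩
  have a1 := hn0 n hn h1 m
  have e : (∑ i ∈ Finset.range n, (c * u (m + i))) / n - c * l =
      c * ((∑ i ∈ Finset.range n, u (m + i)) / n - l) := by
    rw [← Finset.mul_sum]; ring
  show |(∑ i ∈ Finset.range n, (c * u (m + i))) / n - c * l| ≤ ε
  rw [e, abs_mul]
  calc |c| * |(∑ i ∈ Finset.range n, u (m + i)) / n - l| ≤ (|c| + 1) * (ε / (|c| + 1)) :=
        mul_le_mul (by linarith) a1 (abs_nonneg _) (by positivity)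
    _ = ε := by field_simp

lemma uces_tha {a h0 B : ℝ} {σ : Stack 2} (h : GSt a B σ) : ∃ l, UCes (tha a h0 σ) l := by
  obtain ⟨_, _, ⟨l1, h1⟩, ⟨l2, h2⟩⟩ := h
  exact ⟨l1 + h0 / 2 * l2, uces_add (uces_shift h1) (uces_mul (h0 / 2) h2)⟩

lemma tha_bd {a h0 B : ℝ} {σ : Stack 2} (ha : 0 < a) (ha1 : a < 1) (h : GSt a B σ) (i : ℕ) :
    |tha a h0 σ i| ≤ B + |h0| := by
  obtain ⟨hs, hb, _, _⟩ := h
  unfold tha
  have h1 := hb (i + 1)
  have h2 := hs i
  have h3 : (2 * σ (0, true) i - a) ^ 2 ≤ 1 := by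
    rw [sq_le_one_iff_abs_le_one, abs_le]; constructor <;> linarith [h2.1, h2.2]
  have h4 : |h0 / 2 * (2 * σ (0, true) i - a) ^ 2| ≤ |h0| := by
    rw [abs_mul, abs_of_nonneg (sq_nonneg (2 * σ (0, true) i - a)), abs_div, abs_two]
    have := abs_nonneg h0
    nlinarith [sq_nonneg (2 * σ (0, true) i - a)]
  exact le_trans (abs_add_le _ _) (by linarith)

lemma avg_bd {C : ℝ} (hC : 0 ≤ C) {u : ℕ → ℝ} (hu : ∀ i, |u i| ≤ C) (n m : ℕ) :
    |(∑ i ∈ Finset.range n, u (m + i)) / n| ≤ C := by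
  rcases Nat.eq_zero_or_pos n with h | h
  · subst h; simpa using hC
  · have hn : (0 : ℝ) < n := by exact_mod_cast h
    rw [abs_div, abs_of_pos hn, div_le_iff₀ hn]
    calc |∑ i ∈ Finset.range n, u (m + i)| ≤ ∑ i ∈ Finset.range n, |u (m + i)| :=
          Finset.abs_sum_le_sum_abs _ _
      _ ≤ ∑ i ∈ Finset.range n, C := Finset.sum_le_sum fun i _ => hu _
      _ = C * n := by rw [Finset.sum_const, Finset.card_range, nsmul_eq_mul, mul_comm]

lemma thL_eq {a h0 : ℝ} {σ : Stack 2} {l : ℝ} (h : UCes (tha a h0 σ) l) : thL a h0 σ = l := by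
  unfold thL
  apply Tendsto.limsup_eq
  rw [Metric.tendsto_atTop]
  intro ε hε
  obtain ⟨n0, hn0⟩ := h (ε / 2) (by linarith)
  refine ⟨max n0 1, fun n hn => ?_⟩
  have := hn0 n (le_trans (le_max_left _ _) hn) (le_trans (le_max_right _ _) hn) 0
  rw [Real.dist_eq]
  simp only [zero_add] at this
  linarith

lemma thL_bd {a h0 B : ℝ} {σ : Stack 2} (ha : 0 < a) (ha1 : a < 1) (hB : 1 ≤ B)
    (h : GSt a B σ) : |thL a h0 σ| ≤ B + |h0| := by
  obtain ⟨l, hl⟩ := uces_tha (h0 := h0) h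
  rw [thL_eq hl]
  have hC : (0 : ℝ) ≤ B + |h0| := by have := abs_nonneg h0; linarith
  refine le_of_forall_pos_le_add fun ε hε => ?_
  obtain ⟨n0, hn0⟩ := hl ε hε
  have h1 := hn0 (n0 + 1) (by omega) (by omega) 0
  have h2 := avg_bd hC (fun i => tha_bd (h0 := h0) ha ha1 h i) (n0 + 1) 0
  have e : l = (∑ i ∈ Finset.range (n0 + 1), tha a h0 σ (0 + i)) / ((n0 + 1 : ℕ) : ℝ) -
      ((∑ i ∈ Finset.range (n0 + 1), tha a h0 σ (0 + i)) / ((n0 + 1 : ℕ) : ℝ) - l) := by ring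
  rw [e]
  exact le_trans (abs_sub _ _) (by linarith)

lemma epn_term {a h0 B : ℝ} {σ : Stack 2} (ha : 0 < a) (ha1 : a < 1) (hB : 1 ≤ B)
    (h : GSt a B σ) (n m : ℕ) :
    |(∑ i ∈ Finset.range n, tha a h0 σ (m + i)) / n - thL a h0 σ| ≤ 2 * (B + |h0|) := by
  have hC : (0 : ℝ) ≤ B + |h0| := by have := abs_nonneg h0; linarith
  have h2 := avg_bd hC (fun i => tha_bd (h0 := h0) ha ha1 h i) n m
  have h3 := thL_bd (h0 := h0) ha ha1 hB h
  exact le_trans (abs_sub _ _) (by linarith)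

lemma epn_bdd {a h0 B : ℝ} {σ : Stack 2} (ha : 0 < a) (ha1 : a < 1) (hB : 1 ≤ B)
    (h : GSt a B σ) (n : ℕ) :
    BddAbove (Set.range fun m : ℕ =>
      |(∑ i ∈ Finset.range n, tha a h0 σ (m + i)) / n - thL a h0 σ|) :=
  ⟨2 * (B + |h0|), by rintro _ ⟨m, rfl⟩; exact epn_term ha ha1 hB h n m⟩

lemma le_epn {a h0 B : ℝ} {σ : Stack 2} (ha : 0 < a) (ha1 : a < 1) (hB : 1 ≤ B)
    (h : GSt a B σ) (n m : ℕ) :
    |(∑ i ∈ Finset.range n, tha a h0 σ (m + i)) / n - thL a h0 σ| ≤ epn a h0 n σ :=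
  le_ciSup (epn_bdd ha ha1 hB h n) m

lemma meas_tha (a h0 : ℝ) (i : ℕ) : Measurable fun σ : Stack 2 => tha a h0 σ i := by
  unfold tha psum
  fun_prop

lemma meas_thL (a h0 : ℝ) : Measurable (thL a h0) := by
  unfold thL
  refine Measurable.limsup fun n => ?_
  exact (Finset.measurable_sum _ fun i _ => meas_tha a h0 i).div_const _

lemma meas_epn (a h0 : ℝ) (n : ℕ) : Measurable (epn a h0 n) := by
  unfold epn
  refine Measurable.iSup fun m => ?_
  exact (((Finset.measurable_sum _ fun i _ => meas_tha a h0 _).div_const _).sub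
    (meas_thL a h0)).abs

lemma part3 {C : ℝ} (hC : 0 ≤ C) (n : ℕ) (hn : 1 ≤ n) (u : ℕ → ℝ) (hu : ∀ i, |u i| ≤ C) :
    ∃ R : ℕ → ℝ, (∀ l, |R l| ≤ n * C) ∧
      ∀ l, R (l + 1) - R l = u l - (∑ i ∈ Finset.range n, u (l + i)) / n := by
  have hn' : (0 : ℝ) < n := by exact_mod_cast hn
  refine ⟨fun l => -(∑ m ∈ Finset.range n, ((n : ℝ) - 1 - m) * u (l + m)) / n, fun l => ?_,
    fun l => ?_⟩
  · show |-(∑ m ∈ Finset.range n, ((n : ℝ) - 1 - m) * u (l + m)) / n| ≤ n * C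
    rw [abs_div, abs_neg, abs_of_pos hn', div_le_iff₀ hn']
    calc |∑ m ∈ Finset.range n, ((n : ℝ) - 1 - m) * u (l + m)|
        ≤ ∑ m ∈ Finset.range n, |((n : ℝ) - 1 - m) * u (l + m)| := Finset.abs_sum_le_sum_abs _ _
      _ ≤ ∑ m ∈ Finset.range n, (n : ℝ) * C := by
          refine Finset.sum_le_sum fun m hm => ?_
          rw [abs_mul]
          have hm' : m + 1 ≤ n := Finset.mem_range.1 hm
          have hm2 : (m : ℝ) + 1 ≤ n := by exact_mod_cast hm'
          have hm0 : (0 : ℝ) ≤ m := by positivity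
          refine mul_le_mul ?_ (hu _) (abs_nonneg _) hn'.le
          rw [abs_of_nonneg (by linarith)]; linarith
      _ = n * C * n := by rw [Finset.sum_const, Finset.card_range, nsmul_eq_mul]; ring
  · show -(∑ m ∈ Finset.range n, ((n : ℝ) - 1 - m) * u (l + 1 + m)) / n -
      -(∑ m ∈ Finset.range n, ((n : ℝ) - 1 - m) * u (l + m)) / n =
      u l - (∑ i ∈ Finset.range n, u (l + i)) / n
    have key : ∀ k : ℕ, ∑ m ∈ Finset.range k, ((n : ℝ) - 1 - m) * u (l + 1 + m) =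
        ∑ m ∈ Finset.range k, ((n : ℝ) - 1 - m) * u (l + m) +
        ∑ m ∈ Finset.range k, u (l + m) + ((n : ℝ) - k) * u (l + k) - n * u l := by
      intro k
      induction k with
      | zero => simp
      | succ k ih =>
        rw [Finset.sum_range_succ, Finset.sum_range_succ, Finset.sum_range_succ, ih,
          show l + 1 + k = l + (k + 1) by ring]
        push_cast
        ring
    have := key n
    rw [this]
    field_simp
    ring

theorem UCA : UCA_stmt := by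
  intro a h0 B ha ha1 hB
  have hC : (0 : ℝ) ≤ B + |h0| := by have := abs_nonneg h0; linarith
  refine ⟨fun σ h => ⟨tha_bd ha ha1 h, thL_bd ha ha1 hB h, fun n => ⟨?_, ?_⟩, ?_, ?_⟩,
    meas_thL a h0, meas_epn a h0, fun n hn u hu => part3 hC n hn u hu⟩
  · exact le_trans (abs_nonneg _) (le_epn ha ha1 hB h n 0)
  · exact ciSup_le fun m => epn_term ha ha1 hB h n m
  · obtain ⟨l, hl⟩ := uces_tha (h0 := h0) h
    have hL := thL_eq hl
    rw [Metric.tendsto_atTop]
    intro ε hε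
    obtain ⟨n0, hn0⟩ := hl (ε / 2) (by linarith)
    refine ⟨max n0 1, fun n hn => ?_⟩
    have h1 : epn a h0 n σ ≤ ε / 2 := by
      refine ciSup_le fun m => ?_
      rw [hL]
      exact hn0 n (le_trans (le_max_left _ _) hn) (le_trans (le_max_right _ _) hn) m
    have h2 : 0 ≤ epn a h0 n σ := le_trans (abs_nonneg _) (le_epn ha ha1 hB h n 0)
    rw [Real.dist_eq, sub_zero, abs_of_nonneg h2]
    linarith
  · intro n _ m
    exact le_epn ha ha1 hB h n m

end Pool.Agent.Helper8.MKV
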